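import Mathlib

/-! # Positions, buckets and pieces -/

open Finset

namespace Pool.Agent.Y633.Lay

/-! ### Positions -/

/-- The position of a gate in the order by starting time. -/
noncomputable def pos {s : ℕ} (start : Fin s → ℕ) (j : Fin s) : ℕ :=
  ((Tuple.sort start).symm j : ℕ)

/-- The number of gates starting at or before `τ`. -/
def cum {s : ℕ} (start : Fin s → ℕ) (τ : ℕ) : ℕ :=
  (univ.filter fun j : Fin s => start j ≤ τ).card

lemma pos_lt_cum {s : ℕ} (start : Fin s → ℕ) (j : Fin s) (τ : ℕ) :
    pos start j < cum start τ ↔ start j ≤ τ := by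
  have h := Tuple.lt_card_le_iff_apply_le_of_monotone (f := start ∘ Tuple.sort start) (a := τ)
    (Tuple.monotone_sort start) (j := (Tuple.sort start).symm j)
  have hc : (univ.filter fun i : Fin s => (start ∘ Tuple.sort start) i ≤ τ).card =
      cum start τ := by
    unfold cum
    apply card_bij (fun i _ => Tuple.sort start i)
    · intro i hi
      simpa using hi
    · intro i _ i' _ h
      exact (Tuple.sort start).injective h
    · intro i hi
      exact ⟨(Tuple.sort start).symm i, by simpa using hi, by simp⟩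
  rw [hc] at h
  rw [pos, h]
  simp

lemma pos_injective {s : ℕ} (start : Fin s → ℕ) : Function.Injective (pos start) := by
  intro a b h
  exact (Tuple.sort start).symm.injective (Fin.ext h)

lemma pos_lt {s : ℕ} (start : Fin s → ℕ) (j : Fin s) : pos start j < s :=
  ((Tuple.sort start).symm j).isLt

lemma cum_le {s : ℕ} (start : Fin s → ℕ) (τ : ℕ) : cum start τ ≤ s := by
  unfold cum
  refine (card_le_univ _).trans ?_
  simp

/-! ### Counting gates by buckets -/

lemma card_bucket_le {s : ℕ} (f : Fin s → ℕ) (hf : Function.Injective f) (W : ℕ) (hW : 1 ≤ W)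
    (B : Finset ℕ) : (univ.filter fun j => f j / W ∈ B).card ≤ B.card * W := by
  classical
  have h1 : (univ.filter fun j => f j / W ∈ B).card ≤
      (B.biUnion fun β => Ico (β * W) (β * W + W)).card := by
    apply card_le_card_of_injOn f
    · intro j hj
      simp only [coe_filter, mem_univ, true_and, Set.mem_ofPred_eq] at hj
      simp only [coe_biUnion, Set.mem_iUnion, mem_coe, mem_Ico]
      refine ⟨f j / W, hj, Nat.div_mul_le_self _ _, ?_⟩
      have := Nat.lt_mul_div_succ (f j) (b := W) (by omega)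
      have h2 : W * (f j / W + 1) = f j / W * W + W := by ring
      omega
    · intro a _ b _ h
      exact hf h
  refine h1.trans (card_biUnion_le.trans ?_)
  simp

lemma card_sep_le (B : Finset ℕ) (M Q : ℕ) (hQ : 1 ≤ Q) (hB : ∀ β ∈ B, β ≤ M)
    (hsep : ∀ β ∈ B, ∀ β' ∈ B, β < β' → β + Q < β') : B.card ≤ M / Q + 1 := by
  classical
  have h1 : B.card ≤ (range (M / Q + 1)).card := by
    apply card_le_card_of_injOn (fun β => β / Q)
    · intro β hβ
      simp only [coe_range, Set.mem_Iio]
      have := Nat.div_le_div_right (c := Q) (hB β hβ)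
      omega
    · have key : ∀ β ∈ B, ∀ β' ∈ B, β / Q = β' / Q → β < β' → False := by
        intro β hβ β' hβ' h hlt
        have h2 := hsep β hβ β' hβ' hlt
        have h3 : β / Q + 1 ≤ β' / Q := by
          have : (β + Q) / Q = β / Q + 1 := Nat.add_div_right β (by omega)
          rw [← this]
          exact Nat.div_le_div_right (by omega)
        omega
      intro β hβ β' hβ' h
      rcases Nat.lt_trichotomy β β' with hlt | heq | hgt
      · exact (key β hβ β' hβ' h hlt).elim
      · exact heq
      · exact (key β' hβ' β hβ h.symm hgt).elim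
  simpa using h1

/-! ### Pieces -/

section

variable (A : Finset ℕ) (P : ℕ → ℕ) (W Q : ℕ)

/-- Two positions are in the same piece. -/
def same (x y : ℕ) : Prop := ∀ β ∈ A, (P β ≤ x ↔ P β ≤ y)

/-- The bucket of the cut below the piece of `x`. -/
def lo (x : ℕ) : ℕ := (A.filter fun β => P β ≤ x).sup id

/-- The piece of `x` is big. -/
def Big (x : ℕ) : Prop := ∀ β ∈ A, x < P β → lo A P x + Q < β

variable {A P W Q}

lemma same.symm {x y : ℕ} (h : same A P x y) : same A P y x := fun β hβ => (h β hβ).symm

lemma same.trans {x y z : ℕ} (h : same A P x y) (h' : same A P y z) : same A P x z :=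
  fun β hβ => (h β hβ).trans (h' β hβ)

lemma same.lo_eq {x y : ℕ} (h : same A P x y) : lo A P x = lo A P y := by
  unfold lo
  congr 1
  apply filter_congr
  intro β hβ
  exact h β hβ

lemma same.big {x y : ℕ} (h : same A P x y) (hx : Big A P Q x) : Big A P Q y := by
  intro β hβ hlt
  rw [← h.lo_eq]
  apply hx β hβ
  have := h β hβ
  by_contra hcon
  push Not at hcon
  have := this.1 hcon
  omega

lemma le_lo {x β : ℕ} (hβ : β ∈ A) (h : P β ≤ x) : β ≤ lo A P x :=
  le_sup (f := id) (mem_filter.2 ⟨hβ, h⟩)

lemma lo_mul_le (hP : ∀ β ∈ A, P β / W = β) (x : ℕ) : lo A P x * W ≤ x := by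
  unfold lo
  by_cases hne : (A.filter fun β => P β ≤ x).Nonempty
  · obtain ⟨β, hβ, h⟩ := exists_mem_eq_sup _ hne id
    rw [h]
    rw [mem_filter] at hβ
    have h1 := Nat.div_mul_le_self (P β) W
    rw [hP β hβ.1] at h1
    simp only [id]
    omega
  · rw [not_nonempty_iff_eq_empty] at hne
    rw [hne]
    simp

/-- A small piece is short. -/
lemma small_piece (hW : 1 ≤ W) (hP : ∀ β ∈ A, P β / W = β) {x y : ℕ} (h : same A P x y)
    (hx : ¬ Big A P Q x) : y < x + (Q + 1) * W := by
  unfold Big at hx
  push Not at hx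
  obtain ⟨β, hβ, hlt, hle⟩ := hx
  have h1 : y < P β := by
    by_contra hcon
    push Not at hcon
    have := (h β hβ).2 hcon
    omega
  have h2 : P β < (β + 1) * W := by
    have := Nat.lt_mul_div_succ (P β) (b := W) (by omega)
    rw [hP β hβ] at this
    calc P β < W * (β + 1) := this
      _ = (β + 1) * W := mul_comm _ _
  have h3 := lo_mul_le hP x
  have h4 : (β + 1) * W ≤ (lo A P x + Q + 1) * W := Nat.mul_le_mul_right _ (by omega)
  have h5 : (lo A P x + Q + 1) * W = lo A P x * W + (Q + 1) * W := by ring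
  omega

lemma same_bucket_lower {x y : ℕ} (hW : 1 ≤ W) (hP : ∀ β ∈ A, P β / W = β)
    {β : ℕ} (hβ : β ∈ A) (h : same A P x y) (hxy : x < β * W) : y < (β + 1) * W := by
  have h1 := Nat.div_mul_le_self (P β) W
  rw [hP β hβ] at h1
  have h2 : P β < (β + 1) * W := by
    have := Nat.lt_mul_div_succ (P β) (b := W) (by omega)
    rw [hP β hβ] at this
    calc P β < W * (β + 1) := this
      _ = (β + 1) * W := mul_comm _ _
  have h3 : ¬ P β ≤ x := by omega
  have h4 : ¬ P β ≤ y := fun h5 => h3 ((h β hβ).2 h5)
  omega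

/-- Buckets of the lower ends of big pieces. -/
lemma lower_sep (hW : 1 ≤ W) (hP : ∀ β ∈ A, P β / W = β) {x : ℕ} (hx : Big A P Q x)
    (hA : x / W ∈ A) (hPx : P (x / W) ≤ x) : ∀ β' ∈ A, x / W < β' → x / W + Q < β' := by
  intro β' hβ' hlt
  have h1 := Nat.div_mul_le_self (P β') W
  rw [hP β' hβ'] at h1
  have h2 : x < (x / W + 1) * W := by
    have := Nat.lt_mul_div_succ x (b := W) (by omega)
    calc x < W * (x / W + 1) := this
      _ = (x / W + 1) * W := mul_comm _ _
  have h3 : (x / W + 1) * W ≤ β' * W := Nat.mul_le_mul_right _ hlt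
  have h4 := hx β' hβ' (by omega)
  have h5 := le_lo hA hPx
  omega

/-- Buckets of the upper ends of big pieces. -/
lemma upper_sep (hW : 1 ≤ W) (hP : ∀ β ∈ A, P β / W = β) {x : ℕ} (hx : Big A P Q x)
    (hA : x / W ∈ A) (hPx : x < P (x / W)) : ∀ β' ∈ A, β' < x / W → β' + Q < x / W := by
  intro β' hβ' hlt
  have h2 : P β' < (β' + 1) * W := by
    have := Nat.lt_mul_div_succ (P β') (b := W) (by omega)
    rw [hP β' hβ'] at this
    calc P β' < W * (β' + 1) := this
      _ = (β' + 1) * W := mul_comm _ _
  have h3 : (β' + 1) * W ≤ x / W * W := Nat.mul_le_mul_right _ hlt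
  have h4 := Nat.div_mul_le_self x W
  have h5 := hx (x / W) hA hPx
  have h6 := le_lo hβ' (show P β' ≤ x by omega)
  omega

end

end Pool.Agent.Y633.Lay
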