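import Mathlib
import Pool.Agent.Y633.Rob.Master
import Pool.Agent.Y633.Lay.Pieces

/-! # The closed set of gates -/

open Finset

set_option linter.unusedSectionVars false

namespace Pool.Agent.Y633.Lay

open Pool.Agent.Y633.Dep Pool.Agent.Y633.Rob

variable {n q : ℕ}

/-- The gates outside `E` whose values are stored across time `τ`. -/
def cutAt {s : ℕ} (E : Finset (Fin s)) (start stop : Fin s → ℕ) (τ : ℕ) : Finset (Fin s) :=
  univ.filter fun j => j ∉ E ∧ start j ≤ τ ∧ τ < stop j

/-- The times at which more than `e` values are stored. -/
def fat {s : ℕ} (E : Finset (Fin s)) (start stop : Fin s → ℕ) (e : ℕ) : Finset ℕ :=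
  (range (univ.sup stop)).filter fun τ => e < (cutAt E start stop τ).card

lemma mem_fat {s : ℕ} (E : Finset (Fin s)) (start stop : Fin s → ℕ) (e τ : ℕ) :
    τ ∈ fat E start stop e ↔ e < (cutAt E start stop τ).card := by
  unfold fat
  rw [mem_filter, mem_range]
  constructor
  · exact fun h => h.2
  · intro h
    refine ⟨?_, h⟩
    have hpos : 0 < (cutAt E start stop τ).card := by omega
    obtain ⟨j, hj⟩ := card_pos.1 hpos
    simp only [cutAt, mem_filter, mem_univ, true_and] at hj
    exact hj.2.2.trans_le (le_sup (f := stop) (mem_univ j))

lemma sum_cutAt_le {s : ℕ} (E : Finset (Fin s)) (start stop : Fin s → ℕ) (T : Finset ℕ) :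
    ∑ τ ∈ T, (cutAt E start stop τ).card ≤ ∑ j ∈ Eᶜ, (stop j - start j) := by
  classical
  have h1 : ∀ τ, (cutAt E start stop τ).card =
      ∑ j ∈ Eᶜ, if start j ≤ τ ∧ τ < stop j then 1 else 0 := by
    intro τ
    rw [← card_filter]
    congr 1
    ext j
    simp [cutAt]
  simp only [h1]
  rw [sum_comm]
  apply sum_le_sum
  intro j _
  rw [← card_filter]
  calc (T.filter fun τ => start j ≤ τ ∧ τ < stop j).card ≤ (Ico (start j) (stop j)).card := by
        apply card_le_card
        intro τ hτ
        rw [mem_filter] at hτ
        exact mem_Ico.2 hτ.2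
    _ = stop j - start j := by simp

lemma card_fat_le {s : ℕ} (E : Finset (Fin s)) (start stop : Fin s → ℕ) (e : ℕ) :
    (fat E start stop e).card * (e + 1) ≤ ∑ j ∈ Eᶜ, (stop j - start j) := by
  refine le_trans ?_ (sum_cutAt_le E start stop (fat E start stop e))
  rw [← smul_eq_mul, ← sum_const]
  apply sum_le_sum
  intro τ hτ
  rw [mem_fat] at hτ
  exact hτ

/-! ### Ancestors through fat times -/

/-- The inputs attached to a source, given the ancestors of the gates. -/
def ancSrc {s : ℕ} (E : Finset (Fin s)) (start : Fin s → ℕ) (Ft : Finset ℕ)
    (anc : Fin s → Finset (Fin n)) : Src n q s → Finset (Fin n)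
  | Sum.inl (Sum.inl g) => {g}
  | Sum.inl (Sum.inr _) => ∅
  | Sum.inr u => if u ∉ E ∧ start u ∈ Ft then anc u else ∅

lemma exists_anc (C : Circuit n q) (E : Finset (Fin C.size)) (start : Fin C.size → ℕ)
    (Ft : Finset ℕ) : ∃ anc : Fin C.size → Finset (Fin n),
      ∀ v, anc v = univ.biUnion fun a => ancSrc E start Ft anc (C.src v a) := by
  classical
  apply Pool.Agent.H559R2.Sharing.exists_fixed
    (fun v anc => univ.biUnion fun a => ancSrc E start Ft anc (C.src v a))
  intro i v v' h
  apply biUnion_congr rfl
  intro a _
  rcases hs : C.src i a with (j | j) | j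
  · rfl
  · rfl
  · simp only [ancSrc]
    split_ifs
    · exact h j (C.acyclic i a j hs)
    · rfl

lemma card_anc_le {K : ℕ} (C : Circuit n q) (hK : ∀ i, C.arity i ≤ K) (E : Finset (Fin C.size))
    (start : Fin C.size → ℕ) (Ft : Finset ℕ)
    (hst : ∀ i a j, C.src i a = Sum.inr j → j ∉ E → start j < start i)
    (anc : Fin C.size → Finset (Fin n))
    (hanc : ∀ v, anc v = univ.biUnion fun a => ancSrc E start Ft anc (C.src v a)) :
    ∀ (m : ℕ) (v : Fin C.size), v.val < m →
      (anc v).card ≤ K * (K + 1) ^ (Ft.filter fun τ => τ < start v).card := by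
  classical
  intro m
  induction m with
  | zero => intro v hv; exact absurd hv (Nat.not_lt_zero _)
  | succ m ih =>
    intro v hv
    rw [hanc v]
    refine card_biUnion_le.trans ?_
    have hpow : 1 ≤ (K + 1) ^ (Ft.filter fun τ => τ < start v).card :=
      Nat.one_le_pow _ _ (by omega)
    calc ∑ a, (ancSrc E start Ft anc (C.src v a)).card
        ≤ ∑ _a : Fin (C.arity v), (K + 1) ^ (Ft.filter fun τ => τ < start v).card := by
          apply sum_le_sum
          intro a _
          rcases hs : C.src v a with (j | j) | j
          · simpa [ancSrc] using hpow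
          · simp [ancSrc]
          · simp only [ancSrc]
            split_ifs with h
            · have hlt := hst v a j hs h.1
              have hj : j.val < v.val := C.acyclic v a j hs
              refine (ih j (by omega)).trans ?_
              have h1 : (Ft.filter fun τ => τ < start j).card + 1 ≤
                  (Ft.filter fun τ => τ < start v).card := by
                have hsub : insert (start j) (Ft.filter fun τ => τ < start j) ⊆
                    Ft.filter fun τ => τ < start v := by
                  intro τ hτ
                  rw [mem_insert, mem_filter] at hτ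
                  rw [mem_filter]
                  rcases hτ with hτ | hτ
                  · rw [hτ]; exact ⟨h.2, hlt⟩
                  · exact ⟨hτ.1, by omega⟩
                have h2 := card_le_card hsub
                rw [card_insert_of_notMem (by simp)] at h2
                exact h2
              calc K * (K + 1) ^ (Ft.filter fun τ => τ < start j).card
                  ≤ (K + 1) * (K + 1) ^ (Ft.filter fun τ => τ < start j).card :=
                    Nat.mul_le_mul_right _ (by omega)
                _ = (K + 1) ^ ((Ft.filter fun τ => τ < start j).card + 1) := by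
                    rw [pow_succ]; ring
                _ ≤ _ := Nat.pow_le_pow_right (by omega) h1
            · simp
      _ = C.arity v * (K + 1) ^ (Ft.filter fun τ => τ < start v).card := by simp
      _ ≤ _ := Nat.mul_le_mul_right _ (hK v)

/-! ### The closed set -/

open Classical in
/-- The gates that may be reached from the live inputs. -/
noncomputable def liveSet (C : Circuit n q) (start : Fin C.size → ℕ) (A : Finset ℕ) (P : ℕ → ℕ)
    (W Q W₂ : ℕ) (Pset : Finset ℕ) (B : Finset (Fin n)) (anc : Fin C.size → Finset (Fin n)) :
    Finset (Fin C.size) :=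
  univ.filter fun v =>
    (Big A P Q (pos start v) ∧ pos start v / W ∈ A ∧ pos start v < P (pos start v / W)) ∨
    (¬ Big A P Q (pos start v) ∧
      ∃ j, same A P (pos start j) (pos start v) ∧ pos start j / W₂ ∈ Pset) ∨
    (Big A P Q (pos start v) ∧ pos start v / W ∉ A ∧ (anc v ∩ B).Nonempty)

theorem closed_liveSet (C : Circuit n q) (E : Finset (Fin C.size)) (start stop : Fin C.size → ℕ)
    (hst : ∀ i a j, C.src i a = Sum.inr j → j ∉ E → start j < start i ∧ start i ≤ stop j)
    (A : Finset ℕ) (T : ℕ → ℕ) (W Q W₂ : ℕ) (hW : 1 ≤ W)
    (hP : ∀ β ∈ A, cum start (T β) / W = β)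
    (Ft : Finset ℕ) (hFt : ∀ τ, cum start τ / W ∉ A → τ ∈ Ft)
    (anc : Fin C.size → Finset (Fin n))
    (hanc : ∀ v, anc v = univ.biUnion fun a => ancSrc E start Ft anc (C.src v a))
    (Pset : Finset ℕ) (B : Finset (Fin n)) (R : Finset (Fin C.size)) (hER : E ⊆ R)
    (hcut : ∀ β ∈ A, cutAt E start stop (T β) ⊆ R)
    (hG1 : ∀ v a g, C.src v a = Sum.inl (Sum.inl g) → g ∈ B →
      ¬ (Big A (fun β => cum start (T β)) Q (pos start v) ∧ pos start v / W ∈ A ∧
        cum start (T (pos start v / W)) ≤ pos start v))
    (hG2 : ∀ v a g, C.src v a = Sum.inl (Sum.inl g) → g ∈ B →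
      ¬ Big A (fun β => cum start (T β)) Q (pos start v) → pos start v / W₂ ∈ Pset) :
    Closed C B R (liveSet C start A (fun β => cum start (T β)) W Q W₂ Pset B anc) := by
  classical
  have hmem : ∀ v, v ∈ liveSet C start A (fun β => cum start (T β)) W Q W₂ Pset B anc ↔
      ((Big A (fun β => cum start (T β)) Q (pos start v) ∧ pos start v / W ∈ A ∧
        pos start v < cum start (T (pos start v / W))) ∨
      (¬ Big A (fun β => cum start (T β)) Q (pos start v) ∧
        ∃ j, same A (fun β => cum start (T β)) (pos start j) (pos start v) ∧
          pos start j / W₂ ∈ Pset) ∨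
      (Big A (fun β => cum start (T β)) Q (pos start v) ∧ pos start v / W ∉ A ∧
        (anc v ∩ B).Nonempty)) := by
    intro v
    simp [liveSet]
  have hb : ∀ x : ℕ, x / W * W ≤ x ∧ x < (x / W + 1) * W := by
    intro x
    refine ⟨Nat.div_mul_le_self _ _, ?_⟩
    have := Nat.lt_mul_div_succ x (b := W) (by omega)
    calc x < W * (x / W + 1) := this
      _ = (x / W + 1) * W := mul_comm _ _
  refine ⟨?_, ?_⟩
  · intro v a g hs hg
    rw [hmem]
    by_cases hbig : Big A (fun β => cum start (T β)) Q (pos start v)
    · by_cases hA : pos start v / W ∈ A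
      · left
        refine ⟨hbig, hA, ?_⟩
        by_contra hcon
        push Not at hcon
        exact hG1 v a g hs hg ⟨hbig, hA, hcon⟩
      · right; right
        refine ⟨hbig, hA, g, mem_inter.2 ⟨?_, hg⟩⟩
        rw [hanc v, mem_biUnion]
        exact ⟨a, mem_univ _, by rw [hs]; simp [ancSrc]⟩
    · right; left
      exact ⟨hbig, v, fun β _ => Iff.rfl, hG2 v a g hs hg hbig⟩
  · intro v a u hs hu huR
    have huE : u ∉ E := fun h => huR (hER h)
    obtain ⟨hlt, hle⟩ := hst v a u hs huE
    have hcu : cum start (start u) ≤ pos start v := by
      by_contra h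
      push Not at h
      rw [pos_lt_cum] at h
      omega
    have hpu : pos start u < cum start (start u) := (pos_lt_cum start u _).2 le_rfl
    have hpos : pos start u < pos start v := by omega
    have hsame : same A (fun β => cum start (T β)) (pos start u) (pos start v) := by
      intro β hβ
      beta_reduce
      constructor
      · intro h; omega
      · intro h
        by_contra hcon
        push Not at hcon
        rw [pos_lt_cum] at hcon
        have h2 : ¬ pos start v < cum start (T β) := by omega
        rw [pos_lt_cum] at h2
        apply huR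
        apply hcut β hβ
        simp only [cutAt, mem_filter, mem_univ, true_and]
        exact ⟨huE, hcon, by omega⟩
    rw [hmem] at hu ⊢
    rcases hu with ⟨hbig, hA, hPu⟩ | ⟨hsmall, j, hj, hjP⟩ | ⟨hbig, hA, hanu⟩
    · -- upper end
      left
      have hvlt : pos start v < cum start (T (pos start u / W)) := by
        have := hsame _ hA
        beta_reduce at this
        by_contra hcon
        push Not at hcon
        have := this.2 hcon
        omega
      have hbuck : pos start v / W = pos start u / W := by
        have h1 := hP _ hA
        have h2 : pos start u / W ≤ pos start v / W := Nat.div_le_div_right hpos.le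
        have h3 : pos start v / W ≤ cum start (T (pos start u / W)) / W :=
          Nat.div_le_div_right hvlt.le
        omega
      rw [hbuck]
      exact ⟨hsame.big hbig, hA, hvlt⟩
    · right; left
      exact ⟨fun h => hsmall (hsame.symm.big h), j, hj.trans hsame, hjP⟩
    · -- middle
      have hle1 : pos start u / W ≤ pos start v / W := Nat.div_le_div_right hpos.le
      by_cases hAv : pos start v / W ∈ A
      · left
        refine ⟨hsame.big hbig, hAv, ?_⟩
        by_contra hcon
        push Not at hcon
        have h1 := (hsame _ hAv).2 hcon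
        beta_reduce at h1
        have h2 := Nat.div_le_div_right (c := W) h1
        rw [hP _ hAv] at h2
        have h3 : pos start u / W = pos start v / W := by omega
        rw [h3] at hA
        exact hA hAv
      · right; right
        refine ⟨hsame.big hbig, hAv, ?_⟩
        have hfat : start u ∈ Ft := by
          apply hFt
          intro hβ
          have h1 : pos start u / W ≤ cum start (start u) / W := Nat.div_le_div_right hpu.le
          have h2 : cum start (start u) / W ≤ pos start v / W := Nat.div_le_div_right hcu
          have h3 : pos start u / W ≠ cum start (start u) / W := fun h => hA (h ▸ hβ)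
          have h4 : cum start (start u) / W ≠ pos start v / W := fun h => hAv (h ▸ hβ)
          generalize hγ : cum start (start u) / W = γ at *
          have h5 := hb (cum start (T γ))
          rw [hP γ hβ] at h5
          have h6 : (γ + 1) * W ≤ pos start v / W * W := Nat.mul_le_mul_right _ (by omega)
          have h7 := (hb (pos start v)).1
          have h8 := (hsame γ hβ).2 (by beta_reduce; omega)
          beta_reduce at h8
          have h9 : (pos start u / W + 1) * W ≤ γ * W := Nat.mul_le_mul_right _ (by omega)
          have h10 := (hb (pos start u)).2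
          omega
        obtain ⟨g, hg⟩ := hanu
        rw [mem_inter] at hg
        refine ⟨g, mem_inter.2 ⟨?_, hg.2⟩⟩
        rw [hanc v, mem_biUnion]
        refine ⟨a, mem_univ _, ?_⟩
        rw [hs]
        simp only [ancSrc, huE, not_false_eq_true, hfat, and_self, if_true]
        exact hg.1

end Pool.Agent.Y633.Lay
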