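import Mathlib
import Pool.Agent.Y633.Lay.Closure

/-! # Counting, and the choice of the live inputs -/

open Finset

set_option linter.unusedSectionVars false

namespace Pool.Agent.Y633.Lay

open Pool.Agent.Y633.Dep Pool.Agent.Y633.Rob

variable {n q : ℕ}

/-- The gates at the upper ends of the big pieces. -/
lemma card_upper_le {s : ℕ} (start : Fin s → ℕ) (A : Finset ℕ) (P : ℕ → ℕ) (W Q M : ℕ)
    (hW : 1 ≤ W) (hQ : 1 ≤ Q) (hP : ∀ β ∈ A, P β / W = β) (hM : ∀ β ∈ A, β ≤ M)
    (S : Finset (Fin s)) (hS : ∀ v ∈ S, Big A P Q (pos start v) ∧ pos start v / W ∈ A ∧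
      pos start v < P (pos start v / W)) : S.card ≤ (M / Q + 1) * W := by
  classical
  let B : Finset ℕ := A.filter fun β => ∀ β' ∈ A, β' < β → β' + Q < β
  have h1 : S ⊆ univ.filter fun j => pos start j / W ∈ B := by
    intro v hv
    obtain ⟨h1, h2, h3⟩ := hS v hv
    simp only [B, mem_filter, mem_univ, true_and]
    exact ⟨h2, upper_sep hW hP h1 h2 h3⟩
  refine (card_le_card h1).trans ((card_bucket_le _ (pos_injective start) W hW B).trans ?_)
  apply Nat.mul_le_mul_right
  apply card_sep_le B M Q hQ
  · intro β hβ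
    exact hM β (mem_filter.1 hβ).1
  · intro β hβ β' hβ' hlt
    exact (mem_filter.1 hβ').2 β (mem_filter.1 hβ).1 hlt

/-- The gates at the lower ends of the big pieces. -/
lemma card_lower_le {s : ℕ} (start : Fin s → ℕ) (A : Finset ℕ) (P : ℕ → ℕ) (W Q M : ℕ)
    (hW : 1 ≤ W) (hQ : 1 ≤ Q) (hP : ∀ β ∈ A, P β / W = β) (hM : ∀ β ∈ A, β ≤ M)
    (S : Finset (Fin s)) (hS : ∀ v ∈ S, Big A P Q (pos start v) ∧ pos start v / W ∈ A ∧
      P (pos start v / W) ≤ pos start v) : S.card ≤ (M / Q + 1) * W := by
  classical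
  let B : Finset ℕ := A.filter fun β => ∀ β' ∈ A, β < β' → β + Q < β'
  have h1 : S ⊆ univ.filter fun j => pos start j / W ∈ B := by
    intro v hv
    obtain ⟨h1, h2, h3⟩ := hS v hv
    simp only [B, mem_filter, mem_univ, true_and]
    exact ⟨h2, lower_sep hW hP h1 h2 h3⟩
  refine (card_le_card h1).trans ((card_bucket_le _ (pos_injective start) W hW B).trans ?_)
  apply Nat.mul_le_mul_right
  apply card_sep_le B M Q hQ
  · intro β hβ
    exact hM β (mem_filter.1 hβ).1
  · intro β hβ β' hβ' hlt
    exact (mem_filter.1 hβ).2 β' (mem_filter.1 hβ').1 hlt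

/-- The gates in the small pieces that are touched. -/
lemma card_small_le {s : ℕ} (start : Fin s → ℕ) (A : Finset ℕ) (P : ℕ → ℕ) (W Q W₂ : ℕ)
    (hW : 1 ≤ W) (hW₂ : (Q + 1) * W ≤ W₂) (hP : ∀ β ∈ A, P β / W = β) (Pset : Finset ℕ)
    (S : Finset (Fin s)) (hS : ∀ v ∈ S, ¬ Big A P Q (pos start v) ∧
      ∃ j, same A P (pos start j) (pos start v) ∧ pos start j / W₂ ∈ Pset) :
    S.card ≤ 3 * Pset.card * W₂ := by
  classical
  have hW₂pos : 1 ≤ W₂ := by nlinarith
  let B : Finset ℕ := Pset.biUnion fun γ => {γ - 1, γ, γ + 1}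
  have h1 : S ⊆ univ.filter fun j => pos start j / W₂ ∈ B := by
    intro v hv
    obtain ⟨h1, j, h2, h3⟩ := hS v hv
    simp only [B, mem_filter, mem_univ, true_and, mem_biUnion]
    refine ⟨_, h3, ?_⟩
    have h4 := small_piece hW hP h2.symm h1
    have h5 := small_piece hW hP h2 (fun h => h1 (h2.big h))
    have h6 : pos start v / W₂ ≤ pos start j / W₂ + 1 := by
      rw [← Nat.add_div_right _ (by omega)]
      exact Nat.div_le_div_right (by omega)
    have h7 : pos start j / W₂ ≤ pos start v / W₂ + 1 := by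
      rw [← Nat.add_div_right _ (by omega)]
      exact Nat.div_le_div_right (by omega)
    simp only [mem_insert, mem_singleton]
    clear h4 h5
    generalize pos start v / W₂ = a at h6 h7 ⊢
    generalize pos start j / W₂ = b at h6 h7 ⊢
    omega
  refine (card_le_card h1).trans ((card_bucket_le _ (pos_injective start) W₂ hW₂pos B).trans ?_)
  apply Nat.mul_le_mul_right
  refine card_biUnion_le.trans ?_
  calc ∑ γ ∈ Pset, ({γ - 1, γ, γ + 1} : Finset ℕ).card ≤ ∑ _γ ∈ Pset, 3 := by
        apply sum_le_sum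
        intro γ _
        exact card_le_three
    _ = 3 * Pset.card := by rw [sum_const, smul_eq_mul, mul_comm]

theorem card_liveSet_le (C : Circuit n q) (start : Fin C.size → ℕ) (A : Finset ℕ) (P : ℕ → ℕ)
    (W Q W₂ M : ℕ) (hW : 1 ≤ W) (hQ : 1 ≤ Q) (hW₂ : (Q + 1) * W ≤ W₂)
    (hP : ∀ β ∈ A, P β / W = β) (hM : ∀ β ∈ A, β ≤ M) (Pset : Finset ℕ) (B : Finset (Fin n))
    (anc : Fin C.size → Finset (Fin n)) :
    (liveSet C start A P W Q W₂ Pset B anc).card ≤ (M / Q + 1) * W + 3 * Pset.card * W₂ +
      (univ.filter fun v => (anc v ∩ B).Nonempty).card := by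
  classical
  have h1 : liveSet C start A P W Q W₂ Pset B anc ⊆
      ((univ.filter fun v => Big A P Q (pos start v) ∧ pos start v / W ∈ A ∧
        pos start v < P (pos start v / W)) ∪
      (univ.filter fun v => ¬ Big A P Q (pos start v) ∧
        ∃ j, same A P (pos start j) (pos start v) ∧ pos start j / W₂ ∈ Pset)) ∪
      (univ.filter fun v => (anc v ∩ B).Nonempty) := by
    intro v hv
    simp only [liveSet, mem_filter, mem_univ, true_and] at hv
    simp only [mem_union, mem_filter, mem_univ, true_and]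
    rcases hv with h | h | h
    · exact Or.inl (Or.inl h)
    · exact Or.inl (Or.inr h)
    · exact Or.inr h.2.2
  refine (card_le_card h1).trans ((card_union_le _ _).trans ?_)
  apply Nat.add_le_add_right
  refine (card_union_le _ _).trans ?_
  apply Nat.add_le_add
  · exact card_upper_le start A P W Q M hW hQ hP hM _ (fun v hv => (mem_filter.1 hv).2)
  · exact card_small_le start A P W Q W₂ hW hW₂ hP Pset _ (fun v hv => (mem_filter.1 hv).2)

/-- Choosing a set of small total cost. -/
lemma exists_cheap (S : Finset ℕ) (cost : ℕ → ℕ) (total g : ℕ) (hsum : ∑ i ∈ S, cost i ≤ total)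
    (hg : 2 * g ≤ S.card) : ∃ G ⊆ S, G.card = g ∧ S.card * ∑ i ∈ G, cost i ≤ 2 * g * total := by
  classical
  let Low : Finset ℕ := S.filter fun i => S.card * cost i ≤ 2 * total
  have hHigh : 2 * (S.filter fun i => ¬ S.card * cost i ≤ 2 * total).card ≤ S.card := by
    set H := S.filter fun i => ¬ S.card * cost i ≤ 2 * total with hH
    have h1 : H.card * (2 * total + 1) ≤ S.card * total := by
      calc H.card * (2 * total + 1) = ∑ _i ∈ H, (2 * total + 1) := by
            rw [sum_const, smul_eq_mul]
        _ ≤ ∑ i ∈ H, S.card * cost i := by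
            apply sum_le_sum
            intro i hi
            have := (mem_filter.1 hi).2
            omega
        _ = S.card * ∑ i ∈ H, cost i := by rw [mul_sum]
        _ ≤ S.card * ∑ i ∈ S, cost i :=
            Nat.mul_le_mul_left _ (sum_le_sum_of_subset (filter_subset _ _))
        _ ≤ S.card * total := Nat.mul_le_mul_left _ hsum
    by_contra hcon
    push Not at hcon
    rcases Nat.eq_zero_or_pos total with h0 | h0
    · rw [h0] at h1
      have : H.card = 0 := by omega
      omega
    · have h2 : (S.card + 1) * total ≤ 2 * H.card * total := Nat.mul_le_mul_right _ hcon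
      have h3 : (S.card + 1) * total = S.card * total + total := by ring
      have h4 : H.card * (2 * total + 1) = 2 * H.card * total + H.card := by ring
      omega
  have hLow : g ≤ Low.card := by
    have := card_filter_add_card_filter_not (s := S) (fun i => S.card * cost i ≤ 2 * total)
    simp only [Low]
    omega
  obtain ⟨G, hG, hGc⟩ := exists_subset_card_eq hLow
  refine ⟨G, hG.trans (filter_subset _ _), hGc, ?_⟩
  rw [mul_sum]
  calc ∑ i ∈ G, S.card * cost i ≤ ∑ _i ∈ G, 2 * total := by
        apply sum_le_sum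
        intro i hi
        exact (mem_filter.1 (hG hi)).2
    _ = 2 * g * total := by rw [sum_const, smul_eq_mul, hGc]; ring

/-- A decreasing sequence of finite sets is stationary somewhere. -/
lemma exists_stationary (A : ℕ → Finset ℕ) (n : ℕ) (h0 : (A 0).card ≤ n)
    (hA : ∀ k, A (k + 1) ⊆ A k) : ∃ k ≤ n, A (k + 1) = A k := by
  by_contra hcon
  push Not at hcon
  have key : ∀ k ≤ n + 1, (A k).card + k ≤ n := by
    intro k
    induction k with
    | zero => intro _; simpa using h0
    | succ k ih =>
      intro hk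
      have h1 := ih (by omega)
      have h2 := card_lt_card (ssubset_of_subset_of_ne (hA k) (hcon k (by omega)))
      omega
  have := key (n + 1) le_rfl
  omega

end Pool.Agent.Y633.Lay
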