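import Mathlib
import Pool.Agent.Y633.Lay.Count

/-! # The choice of the live inputs -/

open Finset

set_option linter.unusedSectionVars false

namespace Pool.Agent.Y633.Lay

open Pool.Agent.Y633.Dep Pool.Agent.Y633.Rob

variable {N q : ℕ}

/-- Gate `v` reads the data position `g`. -/
def reads (C : Circuit N q) (v : Fin C.size) (g : ℕ) : Prop :=
  ∃ a i, C.src v a = Sum.inl (Sum.inl i) ∧ (i : ℕ) = N / 2 + g

open Classical in
lemma card_reads_le (C : Circuit N q) (v : Fin C.size) (S : Finset ℕ) :
    (S.filter fun g => reads C v g).card ≤ C.arity v := by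
  let f : Fin (C.arity v) → ℕ := fun a =>
    Sum.elim (Sum.elim (fun i : Fin N => (i : ℕ) - N / 2) (fun _ => 0)) (fun _ => 0) (C.src v a)
  have h1 : (S.filter fun g => reads C v g) ⊆ univ.image f := by
    intro g hg
    obtain ⟨a, i, hs, hi⟩ := (mem_filter.1 hg).2
    rw [mem_image]
    refine ⟨a, mem_univ _, ?_⟩
    simp only [f, hs, Sum.elim_inl]
    omega
  refine (card_le_card h1).trans (card_image_le.trans ?_)
  simp

open Classical in
lemma exists_G0 {K : ℕ} (C : Circuit N q) (hK : ∀ i, C.arity i ≤ K) (r b n₀ : ℕ)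
    (γ : Fin C.size → ℕ) (hγ : ∀ v, γ v < b) (Lc Sm : Finset (Fin C.size)) (hn₀ : 1 ≤ n₀)
    (hN : K * C.size + (r + 1) * (K * Lc.card) + (r + 1) * (2 ^ b * n₀) ≤ (r + 1) * (N / 2)) :
    ∃ (Pset : Finset ℕ) (G₀ : Finset ℕ), G₀ ⊆ range (N / 2) ∧ Pset.card ≤ r ∧ n₀ ≤ G₀.card ∧
      (∀ g ∈ G₀, ∀ v ∈ Lc, ¬ reads C v g) ∧ (∀ g ∈ G₀, ∀ v ∈ Sm, reads C v g → γ v ∈ Pset) := by
  let rd : ℕ → ℕ := fun g => (univ.filter fun v => reads C v g).card
  have hrd : ∑ g ∈ range (N / 2), rd g ≤ K * C.size := by
    have h1 : ∑ g ∈ range (N / 2), rd g =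
        ∑ v, ((range (N / 2)).filter fun g => reads C v g).card := by
      simp only [rd, card_filter]
      rw [sum_comm]
    rw [h1]
    calc ∑ v, ((range (N / 2)).filter fun g => reads C v g).card ≤ ∑ _v : Fin C.size, K := by
          apply sum_le_sum
          intro v _
          exact (card_reads_le C v _).trans (hK v)
      _ = K * C.size := by simp [mul_comm]
  let Bad1 : Finset ℕ := (range (N / 2)).filter fun g => r < rd g
  let Bad2 : Finset ℕ := (range (N / 2)).filter fun g => ∃ v ∈ Lc, reads C v g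
  let Elig : Finset ℕ := (range (N / 2)).filter fun g => rd g ≤ r ∧ ∀ v ∈ Lc, ¬ reads C v g
  have hB1 : (r + 1) * Bad1.card ≤ K * C.size := by
    calc (r + 1) * Bad1.card = ∑ _g ∈ Bad1, (r + 1) := by
          rw [sum_const, smul_eq_mul, mul_comm]
      _ ≤ ∑ g ∈ Bad1, rd g := by
          apply sum_le_sum
          intro g hg
          exact (mem_filter.1 hg).2
      _ ≤ ∑ g ∈ range (N / 2), rd g := sum_le_sum_of_subset (filter_subset _ _)
      _ ≤ K * C.size := hrd
  have hB2 : Bad2.card ≤ K * Lc.card := by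
    have h1 : Bad2 ⊆ Lc.biUnion fun v => (range (N / 2)).filter fun g => reads C v g := by
      intro g hg
      obtain ⟨h2, v, hv, h3⟩ := mem_filter.1 hg
      rw [mem_biUnion]
      exact ⟨v, hv, mem_filter.2 ⟨h2, h3⟩⟩
    refine (card_le_card h1).trans (card_biUnion_le.trans ?_)
    calc ∑ v ∈ Lc, ((range (N / 2)).filter fun g => reads C v g).card ≤ ∑ _v ∈ Lc, K := by
          apply sum_le_sum
          intro v _
          exact (card_reads_le C v _).trans (hK v)
      _ = K * Lc.card := by rw [sum_const, smul_eq_mul, mul_comm]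
  have hE : N / 2 ≤ Elig.card + Bad1.card + Bad2.card := by
    have h1 : range (N / 2) ⊆ (Elig ∪ Bad1) ∪ Bad2 := by
      intro g hg
      simp only [Elig, Bad1, Bad2, mem_union, mem_filter]
      by_cases h2 : rd g ≤ r
      · by_cases h3 : ∃ v ∈ Lc, reads C v g
        · exact Or.inr ⟨hg, h3⟩
        · push Not at h3
          exact Or.inl (Or.inl ⟨hg, h2, h3⟩)
      · exact Or.inl (Or.inr ⟨hg, by omega⟩)
    have h2 := card_le_card h1
    rw [card_range] at h2
    refine h2.trans ((card_union_le _ _).trans ?_)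
    exact Nat.add_le_add_right (card_union_le _ _) _
  have hElig : 2 ^ b * n₀ ≤ Elig.card := by
    have h1 : (r + 1) * (N / 2) ≤ (r + 1) * Elig.card + (r + 1) * Bad1.card +
        (r + 1) * Bad2.card := by
      calc (r + 1) * (N / 2) ≤ (r + 1) * (Elig.card + Bad1.card + Bad2.card) :=
            Nat.mul_le_mul_left _ hE
        _ = _ := by ring
    have h2 : (r + 1) * Bad2.card ≤ (r + 1) * (K * Lc.card) := Nat.mul_le_mul_left _ hB2
    have h3 : (r + 1) * (2 ^ b * n₀) ≤ (r + 1) * Elig.card := by omega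
    exact Nat.le_of_mul_le_mul_left h3 (by omega)
  let code : ℕ → Finset ℕ := fun g => (Sm.filter fun v => reads C v g).image γ
  obtain ⟨Pset, _, hfib⟩ := exists_le_card_fiber_of_mul_le_card_of_maps_to
    (s := Elig) (t := (range b).powerset) (f := code) (n := n₀)
    (by
      intro g _
      rw [mem_powerset]
      intro x hx
      simp only [code, mem_image] at hx
      obtain ⟨v, _, rfl⟩ := hx
      exact mem_range.2 (hγ v))
    ⟨∅, by simp⟩ (by rw [card_powerset, card_range]; exact hElig)
  refine ⟨Pset, Elig.filter fun g => code g = Pset, ?_, ?_, hfib, ?_, ?_⟩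
  · exact (filter_subset _ _).trans (filter_subset _ _)
  · have hne : (Elig.filter fun g => code g = Pset).Nonempty := card_pos.1 (by omega)
    obtain ⟨g, hg⟩ := hne
    obtain ⟨hg1, hg2⟩ := mem_filter.1 hg
    rw [← hg2]
    have h1 := (mem_filter.1 hg1).2.1
    refine card_image_le.trans (le_trans ?_ h1)
    apply card_le_card
    intro v hv
    exact mem_filter.2 ⟨mem_univ _, (mem_filter.1 hv).2⟩
  · intro g hg v hv
    exact (mem_filter.1 (mem_filter.1 hg).1).2.2 v hv
  · intro g hg v hv hr
    rw [← (mem_filter.1 hg).2]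
    simp only [code, mem_image]
    exact ⟨v, mem_filter.2 ⟨hv, hr⟩, rfl⟩

open Classical in
lemma sum_cost_le (C : Circuit N q) (anc : Fin C.size → Finset (Fin N)) (α : ℕ)
    (hα : ∀ v, (anc v).card ≤ α) (S : Finset ℕ) :
    ∑ g ∈ S, (univ.filter fun v => ∃ i ∈ anc v, (i : ℕ) = N / 2 + g).card ≤ C.size * α := by
  simp only [card_filter]
  rw [sum_comm]
  calc ∑ v : Fin C.size, ∑ g ∈ S, (if ∃ i ∈ anc v, (i : ℕ) = N / 2 + g then 1 else 0)
      ≤ ∑ _v : Fin C.size, α := by
        apply sum_le_sum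
        intro v _
        rw [← card_filter]
        refine le_trans ?_ (hα v)
        have h1 : (S.filter fun g => ∃ i ∈ anc v, (i : ℕ) = N / 2 + g) ⊆
            (anc v).image (fun i : Fin N => (i : ℕ) - N / 2) := by
          intro g hg
          obtain ⟨i, hi, h⟩ := (mem_filter.1 hg).2
          rw [mem_image]
          exact ⟨i, hi, by omega⟩
        exact (card_le_card h1).trans card_image_le
    _ = C.size * α := by simp

open Classical in
lemma card_anc_live_le (C : Circuit N q) (anc : Fin C.size → Finset (Fin N)) (G : Finset ℕ) :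
    (univ.filter fun v => (anc v ∩ dataSet N G).Nonempty).card ≤
      ∑ g ∈ G, (univ.filter fun v => ∃ i ∈ anc v, (i : ℕ) = N / 2 + g).card := by
  have h1 : (univ.filter fun v => (anc v ∩ dataSet N G).Nonempty) ⊆
      G.biUnion fun g => univ.filter fun v => ∃ i ∈ anc v, (i : ℕ) = N / 2 + g := by
    intro v hv
    obtain ⟨i, hi⟩ := (mem_filter.1 hv).2
    rw [mem_inter] at hi
    simp only [dataSet, mem_filter, mem_univ, true_and] at hi
    simp only [mem_biUnion, mem_filter, mem_univ, true_and]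
    exact ⟨(i : ℕ) - N / 2, hi.2.2, i, hi.1, by omega⟩
  exact (card_le_card h1).trans card_biUnion_le

end Pool.Agent.Y633.Lay
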