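import Mathlib
import Pool.Agent.Y633.Dep.Main
import Pool.Agent.Y633.Lay.Choose

/-! # The main theorem on schedules of bounded total storage -/

open Finset

set_option linter.unusedSectionVars false

namespace Pool.Agent.Y633.Lay

open Pool.Agent.Y633.Dep Pool.Agent.Y633.Rob
open Pool.Agent.H559R2.Sharing (modulus width msgLen modulus_le width_pos)

/-! ### Constants -/

def cr (c K : ℕ) : ℕ := 16 * c * K
def cQ (c K : ℕ) : ℕ := 48 * c * (K + 1)
def cw (c K : ℕ) : ℕ := 72 * cr c K * (K + 1)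
def cb (c K : ℕ) : ℕ := 2 * c * cw c K
def cM (c K : ℕ) : ℕ := 4 * c * cw c K * (cQ c K + 1)
def cα (c K D : ℕ) : ℕ := K * (K + 1) ^ (c * D)
def cΓ (c K D : ℕ) : ℕ := 24 * (K + 1) * (32 * 2 ^ cb c K * c * cα c K D)
def cΨ (c K D : ℕ) : ℕ := 100 * (cM c K + 1) * cΓ c K D
def cD (c K k : ℕ) : ℕ := (cΨ c K)^[k] 1

lemma cΓ_mono {c K D D' : ℕ} (h : D ≤ D') : cΓ c K D ≤ cΓ c K D' := by
  unfold cΓ cα
  gcongr
  omega

lemma le_cΓ {c K : ℕ} (hc : 1 ≤ c) (hK : 1 ≤ K) (D : ℕ) : D ≤ cΓ c K D := by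
  unfold cΓ cα
  have h1 : D < 2 ^ D := Nat.lt_two_pow_self
  have h2 : 2 ^ D ≤ (K + 1) ^ (c * D) := by
    calc 2 ^ D ≤ (K + 1) ^ D := Nat.pow_le_pow_left (by omega) _
      _ ≤ (K + 1) ^ (c * D) := Nat.pow_le_pow_right (by omega) (Nat.le_mul_of_pos_left _ hc)
  have h3 : (K + 1) ^ (c * D) ≤ K * (K + 1) ^ (c * D) := Nat.le_mul_of_pos_left _ hK
  have h4 : K * (K + 1) ^ (c * D) ≤ 24 * (K + 1) * (32 * 2 ^ cb c K * c *
      (K * (K + 1) ^ (c * D))) := by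
    have h5 : 0 < 24 * (K + 1) * (32 * 2 ^ cb c K * c) := by positivity
    calc K * (K + 1) ^ (c * D) ≤ (24 * (K + 1) * (32 * 2 ^ cb c K * c)) *
          (K * (K + 1) ^ (c * D)) := Nat.le_mul_of_pos_left _ h5
      _ = _ := by ring
  omega

lemma cΓ_ge {c K : ℕ} (hc : 1 ≤ c) (hK : 1 ≤ K) (D : ℕ) : 768 * 2 ^ cb c K ≤ cΓ c K D := by
  unfold cΓ cα
  have h1 : 1 ≤ (K + 1) * (c * (K * (K + 1) ^ (c * D))) := by
    apply Nat.succ_le_of_lt
    positivity
  calc 768 * 2 ^ cb c K = 768 * 2 ^ cb c K * 1 := (mul_one _).symm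
    _ ≤ 768 * 2 ^ cb c K * ((K + 1) * (c * (K * (K + 1) ^ (c * D)))) :=
        Nat.mul_le_mul_left _ h1
    _ = _ := by ring

lemma cD_succ (c K k : ℕ) : cD c K (k + 1) = cΨ c K (cD c K k) :=
  Function.iterate_succ_apply' (cΨ c K) k 1

lemma cD_le_succ {c K : ℕ} (hc : 1 ≤ c) (hK : 1 ≤ K) (k : ℕ) : cD c K k ≤ cD c K (k + 1) := by
  rw [cD_succ, cΨ]
  calc cD c K k ≤ cΓ c K (cD c K k) := le_cΓ hc hK _
    _ ≤ 100 * (cM c K + 1) * cΓ c K (cD c K k) := Nat.le_mul_of_pos_left _ (by positivity)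

lemma cD_mono {c K : ℕ} (hc : 1 ≤ c) (hK : 1 ≤ K) : Monotone (cD c K) :=
  monotone_nat_of_le_succ (cD_le_succ hc hK)

lemma cD_pos {c K : ℕ} (hc : 1 ≤ c) (hK : 1 ≤ K) (k : ℕ) : 1 ≤ cD c K k :=
  le_trans (le_of_eq rfl) (cD_mono hc hK (Nat.zero_le k))

/-! ### Numbers -/

lemma half_up {N w : ℕ} (hw : 1 ≤ w) (h : w ≤ N) : N ≤ 2 * w * (N / w) := by
  have h1 : 1 ≤ N / w := (Nat.one_le_div_iff (by omega)).2 h
  have h2 := Nat.lt_mul_div_succ N (b := w) (by omega)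
  nlinarith

lemma width_le {N : ℕ} (hN : 128 ≤ N) : width N ≤ 3 * Nat.log 2 (msgLen N) := by
  set k := msgLen N with hk
  have hkdef : k = N / 2 := rfl
  have hk64 : 64 ≤ k := by omega
  set κ := Nat.log 2 k with hκ
  have hκ2 : k < 2 ^ (κ + 1) := Nat.lt_pow_succ_log_self (by norm_num) k
  have hκ6 : 6 ≤ κ := by
    rw [hκ, show (6 : ℕ) = Nat.log 2 64 by norm_num [Nat.log]]
    exact Nat.log_mono_right hk64
  have hL : width N ≤ 2 * κ + 3 := by
    rw [width, Nat.size_le]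
    have h1 := modulus_le N (by rw [← hk]; omega)
    rw [← hk] at h1
    calc modulus N ≤ 2 * k ^ 2 := h1
      _ < 2 * (2 ^ (κ + 1)) ^ 2 := by
        have := Nat.pow_lt_pow_left hκ2 (n := 2) (by norm_num)
        omega
      _ = 2 ^ (2 * κ + 3) := by rw [← pow_mul, ← pow_succ']; congr 1; ring
  omega

lemma log_le_bound {N Γ : ℕ} (hN : 128 ≤ N) (hΓ : 1 ≤ Γ) (h : 720000 * Γ ^ 2 ≤ N) :
    600 * Γ * Nat.log 2 (msgLen N) ≤ N := by
  set κ := Nat.log 2 (msgLen N) with hκ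
  have hk : msgLen N = N / 2 := rfl
  have hκ1 : 2 ^ κ ≤ N / 2 := by
    rw [← hk]
    exact Nat.pow_log_le_self 2 (by rw [hk]; omega)
  have h3 : κ ^ 2 ≤ 2 * N := by
    have := sq_le_two_pow κ
    omega
  by_contra hcon
  push Not at hcon
  have h4 : N * N < (600 * Γ * κ) * (600 * Γ * κ) := by
    nlinarith
  have h5 : (600 * Γ * κ) * (600 * Γ * κ) ≤ 720000 * Γ ^ 2 * N := by
    calc (600 * Γ * κ) * (600 * Γ * κ) = 360000 * Γ ^ 2 * κ ^ 2 := by ring
      _ ≤ 360000 * Γ ^ 2 * (2 * N) := Nat.mul_le_mul_left _ h3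
      _ = 720000 * Γ ^ 2 * N := by ring
  have h6 : 720000 * Γ ^ 2 * N ≤ N * N := Nat.mul_le_mul_right _ h
  omega

/-! ### The theorem -/

theorem main_bound (c K : ℕ) (hc : 1 ≤ c) (hK1 : 1 ≤ K) : ∃ m N₀ : ℕ, 1 ≤ m ∧
    ∀ N q : ℕ, N₀ ≤ N → m * q ≤ N → ∀ C : Circuit N q, (∀ i, C.arity i ≤ K) →
      C.size ≤ c * N → C.Computes (robFun N) →
      ∀ (E : Finset (Fin C.size)) (start stop : Fin C.size → ℕ), m * E.card ≤ N →
        (∀ i a j, C.src i a = Sum.inr j → j ∉ E → start j < start i ∧ start i ≤ stop j) →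
        c * N < ∑ j ∈ Eᶜ, (stop j - start j) := by
  classical
  obtain ⟨r, hr⟩ : ∃ r, r = cr c K := ⟨_, rfl⟩
  obtain ⟨Q, hQ⟩ : ∃ Q, Q = cQ c K := ⟨_, rfl⟩
  obtain ⟨w2, hw2⟩ : ∃ w2, w2 = cw c K := ⟨_, rfl⟩
  obtain ⟨b₀, hb₀⟩ : ∃ b₀, b₀ = cb c K := ⟨_, rfl⟩
  obtain ⟨M₀, hM₀⟩ : ∃ M₀, M₀ = cM c K := ⟨_, rfl⟩
  obtain ⟨Γm, hΓm⟩ : ∃ Γm, Γm = cΓ c K (cD c K (M₀ + 2)) := ⟨_, rfl⟩
  refine ⟨200 * Γm + 1, w2 * (Q + 1) + 720000 * Γm ^ 2 + 6000 * Γm + 128, by omega, ?_⟩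
  intro N q hN hq C hK hsize hC E start stop hEcard hst
  by_contra hcon
  push Not at hcon
  have hrpos : 1 ≤ r := by rw [hr, cr]; apply Nat.succ_le_of_lt; positivity
  have hQpos : 1 ≤ Q := by rw [hQ, cQ]; apply Nat.succ_le_of_lt; positivity
  have hr16 : r = 16 * c * K := by rw [hr, cr]
  have hQ48 : Q = 48 * c * (K + 1) := by rw [hQ, cQ]
  have hw2r : w2 = 72 * r * (K + 1) := by rw [hw2, cw, hr]
  have hb2 : b₀ = 2 * c * w2 := by rw [hb₀, cb, hw2]
  have hM4 : M₀ = 4 * c * w2 * (Q + 1) := by rw [hM₀, cM, hw2, hQ]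
  have hw2pos : 1 ≤ w2 := by rw [hw2r]; apply Nat.succ_le_of_lt; positivity
  have hw2N : w2 * (Q + 1) ≤ N := by omega
  have hw2N' : w2 ≤ N := le_trans (Nat.le_mul_of_pos_right _ (by omega)) hw2N
  have hN128 : 128 ≤ N := by omega
  -- widths
  obtain ⟨W₂, hW₂⟩ : ∃ W₂, W₂ = N / w2 := ⟨_, rfl⟩
  obtain ⟨W, hW⟩ : ∃ W, W = W₂ / (Q + 1) := ⟨_, rfl⟩
  have hf1 : w2 * W₂ ≤ N := by rw [hW₂]; exact Nat.mul_div_le _ _
  have hf2 : N ≤ 2 * w2 * W₂ := by rw [hW₂]; exact half_up hw2pos hw2N'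
  have hQW₂ : Q + 1 ≤ W₂ := by
    rw [hW₂, Nat.le_div_iff_mul_le (by omega)]
    calc (Q + 1) * w2 = w2 * (Q + 1) := mul_comm _ _
      _ ≤ N := hw2N
  have hf3 : (Q + 1) * W ≤ W₂ := by rw [hW]; exact Nat.mul_div_le _ _
  have hW1 : 1 ≤ W := by
    rw [hW]
    exact (Nat.one_le_div_iff (by omega)).2 hQW₂
  have hf4 : W₂ ≤ 2 * (Q + 1) * W := by rw [hW]; exact half_up (by omega) hQW₂
  have hW₂1 : 1 ≤ W₂ := by omega
  have hcumM : ∀ τ, cum start τ / W ≤ M₀ := by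
    intro τ
    apply Nat.div_le_of_le_mul
    calc cum start τ ≤ C.size := cum_le start τ
      _ ≤ c * N := hsize
      _ ≤ c * (2 * w2 * W₂) := Nat.mul_le_mul_left _ hf2
      _ ≤ c * (2 * w2 * (2 * (Q + 1) * W)) := by gcongr
      _ = W * M₀ := by rw [hM4]; ring
  have hγ : ∀ v, pos start v / W₂ < b₀ := by
    intro v
    rw [Nat.div_lt_iff_lt_mul (by omega)]
    calc pos start v < C.size := pos_lt start v
      _ ≤ c * N := hsize
      _ ≤ c * (2 * w2 * W₂) := Nat.mul_le_mul_left _ hf2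
      _ = b₀ * W₂ := by rw [hb2]; ring
  -- scales
  let e : ℕ → ℕ := fun k => N / cD c K k
  let Ak : ℕ → Finset ℕ := fun k => (range (M₀ + 1)).filter fun β =>
    ∃ τ, (cutAt E start stop τ).card ≤ e k ∧ cum start τ / W = β
  obtain ⟨k, hkM, hkA⟩ := exists_stationary Ak (M₀ + 1)
    ((card_filter_le _ _).trans (by simp)) (by
      intro k β hβ
      obtain ⟨h1, τ, h2, h3⟩ := mem_filter.1 hβ
      refine mem_filter.2 ⟨h1, τ, h2.trans ?_, h3⟩
      exact Nat.div_le_div_left (cD_le_succ hc hK1 k) (cD_pos hc hK1 k))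
  obtain ⟨A, hA⟩ : ∃ A, A = Ak k := ⟨_, rfl⟩
  have hA' : A = Ak (k + 1) := by rw [hA, hkA]
  obtain ⟨D, hD⟩ : ∃ D, D = cD c K k := ⟨_, rfl⟩
  obtain ⟨Γ, hΓ⟩ : ∃ Γ, Γ = cΓ c K D := ⟨_, rfl⟩
  have hDpos : 1 ≤ D := by rw [hD]; exact cD_pos hc hK1 k
  have hΓle : Γ ≤ Γm := by
    rw [hΓ, hΓm, hD]
    exact cΓ_mono (cD_mono hc hK1 (by omega))
  have hΓ768 : 768 * 2 ^ b₀ ≤ Γ := by rw [hΓ, hb₀]; exact cΓ_ge hc hK1 D
  have h2b : 1 ≤ 2 ^ b₀ := Nat.one_le_two_pow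
  have hΓpos : 1 ≤ Γ := by omega
  have hexT : ∀ β, ∃ τ, β ∈ A → (cutAt E start stop τ).card ≤ e (k + 1) ∧
      cum start τ / W = β := by
    intro β
    by_cases hβ : β ∈ A
    · have h1 := hβ
      rw [hA'] at h1
      obtain ⟨_, τ, h2⟩ := mem_filter.1 h1
      exact ⟨τ, fun _ => h2⟩
    · exact ⟨0, fun h => absurd h hβ⟩
  choose T hT using hexT
  have hP : ∀ β ∈ A, cum start (T β) / W = β := fun β hβ => (hT β hβ).2
  have hAM : ∀ β ∈ A, β ≤ C.size / W := by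
    intro β hβ
    rw [← hP β hβ]
    exact Nat.div_le_div_right (cum_le start _)
  obtain ⟨Ft, hFtdef⟩ : ∃ Ft, Ft = fat E start stop (e k) := ⟨_, rfl⟩
  have hFt : ∀ τ, cum start τ / W ∉ A → τ ∈ Ft := by
    intro τ h
    rw [hFtdef, mem_fat]
    by_contra h2
    push Not at h2
    apply h
    rw [hA]
    refine mem_filter.2 ⟨mem_range.2 ?_, τ, h2, rfl⟩
    have := hcumM τ
    omega
  have hFtcard : Ft.card ≤ c * D := by
    have h1 := (card_fat_le E start stop (e k)).trans hcon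
    rw [← hFtdef] at h1
    have h2 : N < D * (e k + 1) := by
      have := Nat.lt_mul_div_succ N (b := D) (by omega)
      simpa only [e, hD] using this
    have h3 : N * Ft.card ≤ N * (c * D) := by
      calc N * Ft.card ≤ (D * (e k + 1)) * Ft.card := Nat.mul_le_mul_right _ h2.le
        _ = D * (Ft.card * (e k + 1)) := by ring
        _ ≤ D * (c * N) := Nat.mul_le_mul_left _ h1
        _ = N * (c * D) := by ring
    exact Nat.le_of_mul_le_mul_left h3 (by omega)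
  -- ancestors
  obtain ⟨anc, hanc⟩ := exists_anc C E start Ft
  obtain ⟨α, hα⟩ : ∃ α, α = cα c K D := ⟨_, rfl⟩
  have hanccard : ∀ v, (anc v).card ≤ α := by
    intro v
    refine (card_anc_le C hK E start Ft (fun i a j h h' => (hst i a j h h').1) anc hanc
      (v.val + 1) v (Nat.lt_succ_self _)).trans ?_
    rw [hα, cα]
    apply Nat.mul_le_mul_left
    apply Nat.pow_le_pow_right (by omega)
    exact (card_filter_le _ _).trans hFtcard
  have hΓα : Γ = 24 * (K + 1) * (32 * 2 ^ b₀ * c * α) := by rw [hΓ, cΓ, hα, hb₀]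
  -- lower ends
  let P : ℕ → ℕ := fun β => cum start (T β)
  let Lc : Finset (Fin C.size) := univ.filter fun v => Big A P Q (pos start v) ∧
    pos start v / W ∈ A ∧ P (pos start v / W) ≤ pos start v
  let Sm : Finset (Fin C.size) := univ.filter fun v => ¬ Big A P Q (pos start v)
  obtain ⟨lc, hlc⟩ : ∃ lc, lc = (C.size / W / Q + 1) * W := ⟨_, rfl⟩
  have hLc : Lc.card ≤ lc := by
    rw [hlc]
    exact card_lower_le start A P W Q _ hW1 hQpos hP hAM _ (fun v hv => (mem_filter.1 hv).2)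
  have hlcN : 24 * (K + 1) * lc ≤ N := by
    have h1 : C.size / W / Q * W * Q ≤ C.size := by
      rw [Nat.div_div_eq_div_mul]
      calc C.size / (W * Q) * W * Q = C.size / (W * Q) * (W * Q) := by ring
        _ ≤ C.size := Nat.div_mul_le_self _ _
    have h2 : c * (48 * (K + 1) * (C.size / W / Q * W)) ≤ c * N := by
      calc c * (48 * (K + 1) * (C.size / W / Q * W)) = C.size / W / Q * W * Q := by
            rw [hQ48]; ring
        _ ≤ C.size := h1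
        _ ≤ c * N := hsize
    have h3 := Nat.le_of_mul_le_mul_left h2 (by omega)
    have h4 : 48 * (K + 1) * W ≤ N := by
      calc 48 * (K + 1) * W ≤ (72 * r * (K + 1)) * ((Q + 1) * W) := by
            have h5 : 48 * (K + 1) ≤ 72 * r * (K + 1) := Nat.mul_le_mul_right _ (by omega)
            have h6 : W ≤ (Q + 1) * W := Nat.le_mul_of_pos_left _ (by omega)
            exact Nat.mul_le_mul h5 h6
        _ ≤ (72 * r * (K + 1)) * W₂ := Nat.mul_le_mul_left _ hf3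
        _ = w2 * W₂ := by rw [hw2r]
        _ ≤ N := hf1
    have h5 : 2 * (24 * (K + 1) * lc) = 48 * (K + 1) * (C.size / W / Q * W) +
        48 * (K + 1) * W := by rw [hlc]; ring
    omega
  -- the eligible inputs
  obtain ⟨n₀, hn₀⟩ : ∃ n₀, n₀ = N / (8 * 2 ^ b₀) := ⟨_, rfl⟩
  have hΓN : Γ ≤ N := by omega
  have h8b : 8 * 2 ^ b₀ ≤ N := by omega
  have hn₀1 : 1 ≤ n₀ := by rw [hn₀]; exact (Nat.one_le_div_iff (by omega)).2 h8b
  have hn₀a : 8 * (2 ^ b₀ * n₀) ≤ N := by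
    have := Nat.mul_div_le N (8 * 2 ^ b₀)
    rw [← hn₀] at this
    calc 8 * (2 ^ b₀ * n₀) = 8 * 2 ^ b₀ * n₀ := by ring
      _ ≤ N := this
  have hn₀b : N ≤ 16 * 2 ^ b₀ * n₀ := by
    have := half_up (N := N) (w := 8 * 2 ^ b₀) (by omega) h8b
    rw [← hn₀] at this
    calc N ≤ 2 * (8 * 2 ^ b₀) * n₀ := this
      _ = 16 * 2 ^ b₀ * n₀ := by ring
  have hcount : K * C.size + (r + 1) * (K * Lc.card) + (r + 1) * (2 ^ b₀ * n₀) ≤
      (r + 1) * (N / 2) := by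
    have h1 : 16 * (K * C.size) ≤ r * N := by
      calc 16 * (K * C.size) ≤ 16 * (K * (c * N)) := by gcongr
        _ = r * N := by rw [hr16]; ring
    have h2 : 24 * (K * Lc.card) ≤ N := by
      calc 24 * (K * Lc.card) ≤ 24 * (K * lc) := by gcongr
        _ ≤ 24 * (K * lc) + 24 * lc := Nat.le_add_right _ _
        _ = 24 * (K + 1) * lc := by ring
        _ ≤ N := hlcN
    have h3 : 24 * ((r + 1) * (K * Lc.card)) ≤ (r + 1) * N := by
      calc 24 * ((r + 1) * (K * Lc.card)) = (r + 1) * (24 * (K * Lc.card)) := by ring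
        _ ≤ (r + 1) * N := Nat.mul_le_mul_left _ h2
    have h4 : 8 * ((r + 1) * (2 ^ b₀ * n₀)) ≤ (r + 1) * N := by
      calc 8 * ((r + 1) * (2 ^ b₀ * n₀)) = (r + 1) * (8 * (2 ^ b₀ * n₀)) := by ring
        _ ≤ (r + 1) * N := Nat.mul_le_mul_left _ hn₀a
    have h5 : (r + 1) * (11 * N) ≤ (r + 1) * (48 * (N / 2)) :=
      Nat.mul_le_mul_left _ (by omega)
    have h6 : (r + 1) * (11 * N) = 11 * ((r + 1) * N) := by ring
    have h7 : (r + 1) * (48 * (N / 2)) = 48 * ((r + 1) * (N / 2)) := by ring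
    have h8 : r * N ≤ (r + 1) * N := Nat.mul_le_mul_right _ (by omega)
    omega
  obtain ⟨Pset, G₀, hG₀r, hPcard, hG₀card, hG₀1, hG₀2⟩ := exists_G0 C hK r b₀ n₀
    (fun v => pos start v / W₂) hγ Lc Sm hn₀1 hcount
  -- the live inputs
  obtain ⟨g₀, hg₀⟩ : ∃ g₀, g₀ = N / Γ := ⟨_, rfl⟩
  have hg₀a : Γ * g₀ ≤ N := by rw [hg₀]; exact Nat.mul_div_le _ _
  have hg₀b : N ≤ 2 * Γ * g₀ := by rw [hg₀]; exact half_up hΓpos hΓN
  have hg₀n : 48 * g₀ ≤ n₀ := by
    have h1 : 16 * 2 ^ b₀ * (48 * g₀) ≤ 16 * 2 ^ b₀ * n₀ := by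
      calc 16 * 2 ^ b₀ * (48 * g₀) = (768 * 2 ^ b₀) * g₀ := by ring
        _ ≤ Γ * g₀ := Nat.mul_le_mul_right _ hΓ768
        _ ≤ N := hg₀a
        _ ≤ _ := hn₀b
    exact Nat.le_of_mul_le_mul_left h1 (by omega)
  obtain ⟨G, hGsub, hGcard, hGcost⟩ := exists_cheap G₀
    (fun g => (univ.filter fun v => ∃ i ∈ anc v, (i : ℕ) = N / 2 + g).card) (C.size * α) g₀
    (sum_cost_le C anc α hanccard G₀) (by omega)
  obtain ⟨cost, hcost⟩ : ∃ cost, cost = ∑ g ∈ G,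
    (univ.filter fun v => ∃ i ∈ anc v, (i : ℕ) = N / 2 + g).card := ⟨_, rfl⟩
  rw [← hcost] at hGcost
  have hcostN : 24 * (K + 1) * cost ≤ N := by
    have h1 : n₀ * cost ≤ n₀ * (32 * 2 ^ b₀ * c * α * g₀) := by
      calc n₀ * cost ≤ G₀.card * cost := Nat.mul_le_mul_right _ hG₀card
        _ ≤ 2 * g₀ * (C.size * α) := hGcost
        _ ≤ 2 * g₀ * (c * (16 * 2 ^ b₀ * n₀) * α) := by
            gcongr
            exact hsize.trans (Nat.mul_le_mul_left _ hn₀b)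
        _ = n₀ * (32 * 2 ^ b₀ * c * α * g₀) := by ring
    have h2 := Nat.le_of_mul_le_mul_left h1 (by omega)
    calc 24 * (K + 1) * cost ≤ 24 * (K + 1) * (32 * 2 ^ b₀ * c * α * g₀) :=
          Nat.mul_le_mul_left _ h2
      _ = Γ * g₀ := by rw [hΓα]; ring
      _ ≤ N := hg₀a
  have hGr : G ⊆ range (N / 2) := hGsub.trans hG₀r
  -- the cut set
  let R : Finset (Fin C.size) := ({C.out} ∪ E) ∪ A.biUnion fun β => cutAt E start stop (T β)
  have hout : C.out ∈ R := mem_union_left _ (mem_union_left _ (mem_singleton_self _))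
  have hER : E ⊆ R := fun x hx => mem_union_left _ (mem_union_right _ hx)
  have hcutR : ∀ β ∈ A, cutAt E start stop (T β) ⊆ R := by
    intro β hβ x hx
    exact mem_union_right _ (mem_biUnion.2 ⟨β, hβ, hx⟩)
  have hAcard : A.card ≤ M₀ + 1 := by
    rw [hA]
    exact (card_filter_le _ _).trans (by simp)
  have hRcard : R.card ≤ 1 + E.card + (M₀ + 1) * e (k + 1) := by
    refine (card_union_le _ _).trans ?_
    apply Nat.add_le_add
    · refine (card_union_le _ _).trans ?_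
      rw [card_singleton]
    · refine card_biUnion_le.trans ?_
      calc ∑ β ∈ A, (cutAt E start stop (T β)).card ≤ ∑ _β ∈ A, e (k + 1) :=
            sum_le_sum fun β hβ => (hT β hβ).1
        _ = A.card * e (k + 1) := by rw [sum_const, smul_eq_mul]
        _ ≤ _ := Nat.mul_le_mul_right _ hAcard
  have hRsmall : 100 * Γ * (q + R.card + 4) ≤ 2 * N + 500 * Γ := by
    have h1 : 200 * Γ * q ≤ N := by
      calc 200 * Γ * q ≤ 200 * Γm * q := by gcongr
        _ ≤ (200 * Γm + 1) * q := by gcongr; omega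
        _ ≤ N := hq
    have h2 : 200 * Γ * E.card ≤ N := by
      calc 200 * Γ * E.card ≤ 200 * Γm * E.card := by gcongr
        _ ≤ (200 * Γm + 1) * E.card := by gcongr; omega
        _ ≤ N := hEcard
    have h3 : 100 * Γ * ((M₀ + 1) * e (k + 1)) ≤ N := by
      have h4 : cD c K (k + 1) = 100 * (M₀ + 1) * Γ := by rw [cD_succ, cΨ, ← hD, ← hΓ, ← hM₀]
      calc 100 * Γ * ((M₀ + 1) * e (k + 1)) = (100 * (M₀ + 1) * Γ) * e (k + 1) := by ring
        _ = cD c K (k + 1) * e (k + 1) := by rw [h4]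
        _ ≤ N := Nat.mul_div_le _ _
    have h5 : 100 * Γ * (q + R.card + 4) ≤
        100 * Γ * (q + (1 + E.card + (M₀ + 1) * e (k + 1)) + 4) := by gcongr
    have h6 : 100 * Γ * (q + (1 + E.card + (M₀ + 1) * e (k + 1)) + 4) =
        100 * Γ * q + 100 * Γ * E.card + 100 * Γ * ((M₀ + 1) * e (k + 1)) + 500 * Γ := by ring
    have h7 : 2 * (100 * Γ * q) = 200 * Γ * q := by ring
    have h8 : 2 * (100 * Γ * E.card) = 200 * Γ * E.card := by ring
    omega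
  obtain ⟨κ, hκ⟩ : ∃ κ, κ = Nat.log 2 (msgLen N) := ⟨_, rfl⟩
  have hk2 : msgLen N = N / 2 := rfl
  have hκN : 600 * Γ * κ ≤ N := by
    rw [hκ]
    apply log_le_bound hN128 hΓpos
    have : 720000 * Γ ^ 2 ≤ 720000 * Γm ^ 2 := by gcongr
    omega
  have hκ6 : 6 ≤ κ := by
    rw [hκ, hk2, show (6 : ℕ) = Nat.log 2 64 by norm_num [Nat.log]]
    exact Nat.log_mono_right (by omega)
  have hmain12 : 12 * (q + R.card + 4) + 6 * κ ≤ g₀ := by
    have h1 : 100 * Γ * (12 * (q + R.card + 4) + 6 * κ) ≤ 100 * Γ * g₀ := by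
      have h2 : 100 * Γ * (12 * (q + R.card + 4) + 6 * κ) =
          12 * (100 * Γ * (q + R.card + 4)) + 600 * Γ * κ := by ring
      have h3 : 50 * N ≤ 100 * Γ * g₀ := by
        calc 50 * N ≤ 50 * (2 * Γ * g₀) := Nat.mul_le_mul_left _ hg₀b
          _ = 100 * Γ * g₀ := by ring
      have h4 : 6000 * Γ ≤ N := by
        have : 6000 * Γ ≤ 6000 * Γm := Nat.mul_le_mul_left _ hΓle
        omega
      omega
    exact Nat.le_of_mul_le_mul_left h1 (by omega)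
  -- the number of blocks
  obtain ⟨w, hw⟩ : ∃ w, w = g₀ / (2 * width N) := ⟨_, rfl⟩
  have hwidth := width_le hN128
  rw [← hκ] at hwidth
  have hwpos := width_pos N
  have hw1 : 2 * width N * w ≤ G.card := by
    rw [hGcard, hw]
    exact Nat.mul_div_le _ _
  have hw2' : g₀ ≤ 6 * κ * (w + 1) := by
    have h1 := Nat.lt_mul_div_succ g₀ (b := 2 * width N) (by omega)
    rw [← hw] at h1
    calc g₀ ≤ 2 * width N * (w + 1) := h1.le
      _ ≤ 2 * (3 * κ) * (w + 1) := by gcongr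
      _ = 6 * κ * (w + 1) := by ring
  have hTw : q + R.card + 4 ≤ (κ - 1) * w := by
    obtain ⟨κ', hκ'⟩ : ∃ κ', κ = κ' + 1 := ⟨κ - 1, by omega⟩
    have h1 : 6 * κ * (w + 1) = 6 * (κ * w) + 6 * κ := by ring
    have h2 : κ * w ≤ 2 * ((κ - 1) * w) := by
      rw [hκ', Nat.add_sub_cancel]
      have h3 : w ≤ κ' * w := Nat.le_mul_of_pos_left _ (by omega)
      have h4 : (κ' + 1) * w = κ' * w + w := by ring
      omega
    omega
  have hg₀N : 768 * g₀ ≤ N := by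
    calc 768 * g₀ ≤ Γ * g₀ := Nat.mul_le_mul_right _ (by omega)
      _ ≤ N := hg₀a
  have hpow : 2 ^ (q + R.card + 4) ≤ (N / 2 - G.card) ^ w := by
    have h1 : 2 ^ κ ≤ N / 2 := by
      rw [hκ, ← hk2]
      exact Nat.pow_log_le_self 2 (by rw [hk2]; omega)
    have h2 : 2 ^ (κ - 1) ≤ N / 2 - G.card := by
      have h3 : 2 ^ κ = 2 * 2 ^ (κ - 1) := by
        rw [← pow_succ']
        congr 1
        omega
      rw [hGcard]
      omega
    calc 2 ^ (q + R.card + 4) ≤ 2 ^ ((κ - 1) * w) := Nat.pow_le_pow_right (by norm_num) hTw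
      _ = (2 ^ (κ - 1)) ^ w := pow_mul _ _ _
      _ ≤ (N / 2 - G.card) ^ w := Nat.pow_le_pow_left h2 w
  -- the closed set
  have hclosed := closed_liveSet C E start stop hst A T W Q W₂ hW1 hP Ft hFt anc hanc Pset
    (dataSet N G) R hER hcutR
    (by
      intro v a i hs hi hbad
      simp only [dataSet, mem_filter, mem_univ, true_and] at hi
      refine hG₀1 _ (hGsub hi.2) v (mem_filter.2 ⟨mem_univ _, hbad⟩) ⟨a, i, hs, by omega⟩)
    (by
      intro v a i hs hi hbad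
      simp only [dataSet, mem_filter, mem_univ, true_and] at hi
      exact hG₀2 _ (hGsub hi.2) v (mem_filter.2 ⟨mem_univ _, hbad⟩) ⟨a, i, hs, by omega⟩)
  obtain ⟨L, hLdef⟩ : ∃ L, L = liveSet C start A (fun β => cum start (T β)) W Q W₂ Pset
    (dataSet N G) anc := ⟨_, rfl⟩
  rw [← hLdef] at hclosed
  have hLcard : 8 * (K + 1) * L.card ≤ N := by
    have h1 := card_liveSet_le C start A P W Q W₂ _ hW1 hQpos hf3 hP hAM Pset (dataSet N G) anc
    rw [← hlc] at h1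
    have h2 := card_anc_live_le C anc G
    rw [← hcost] at h2
    have h3 : L.card ≤ lc + 3 * r * W₂ + cost := by
      rw [hLdef]
      refine h1.trans ?_
      have h4 : 3 * Pset.card * W₂ ≤ 3 * r * W₂ := by gcongr
      omega
    have h5 : 24 * (K + 1) * L.card ≤ 3 * N := by
      calc 24 * (K + 1) * L.card ≤ 24 * (K + 1) * (lc + 3 * r * W₂ + cost) :=
            Nat.mul_le_mul_left _ h3
        _ = 24 * (K + 1) * lc + w2 * W₂ + 24 * (K + 1) * cost := by rw [hw2r]; ring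
        _ ≤ N + N + N := by gcongr
        _ = 3 * N := by ring
    have h6 : 24 * (K + 1) * L.card = 3 * (8 * (K + 1) * L.card) := by ring
    omega
  have hfinal := master C hK hC G hGr w hw1 R L hout hclosed hpow
  rw [hGcard] at hfinal
  have h9 : 8 * ((K + 1) * L.card) ≤ N := by
    calc 8 * ((K + 1) * L.card) = 8 * (K + 1) * L.card := by ring
      _ ≤ N := hLcard
  omega

end Pool.Agent.Y633.Lay
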